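import Pool.Agent.N627.ND.Stm

/-!
# Project ND, leaf M2: pieces
-/

set_option autoImplicit false

namespace Pool.Agent.N619.ND

open Pool.Agent.N627.ND

theorem link_mono {V : Type} {H G : SimpleGraph V} (h : H ≤ G) {R t : ℕ} (hl : Link H R t) :
    Link G R t := by
  obtain ⟨v, P, h1, h2⟩ := hl
  refine ⟨v, P, fun i j hij => ?_, h2⟩
  obtain ⟨a1, a2, a3⟩ := h1 i j hij
  refine ⟨a1, a2, fun a ha => ?_⟩
  rcases a3 a ha with h3 | h3
  · exact Or.inl h3
  · exact Or.inr (h h3)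

theorem ex_mono {V : Type} {H G : SimpleGraph V} (h : H ≤ G) {μ : ℕ → ℕ} (hG : Ex μ G) :
    Ex μ H := fun R hl => hG R (link_mono h hl)

theorem ball_le {V : Type} (G : SimpleGraph V) (c : V) (R : ℕ) : ball G c R ≤ G :=
  fun _ _ h => h.1

theorem del_le {V : Type} (G : SimpleGraph V) {s : ℕ} (w : Fin s → V) : del G w ≤ G :=
  fun _ _ h => h.1

theorem spP_empty {A B : Type} [IsEmpty A] [IsEmpty B] (s : ℝ) (hs : 0 ≤ s) (X : A → B → Prop) :
    SpP s X := by
  refine ⟨Empty, inferInstance, fun _ l => l.elim, fun l _ => l.elim, fun a => ?_, fun b => ?_,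
    fun a => ?_⟩
  · exact isEmptyElim a
  · exact isEmptyElim b
  · exact isEmptyElim a

/-- the pieces, without the estimates: bound `z * (2 * (1 + s0)) ^ 3` -/
theorem piece (hRI : S_RI) (hLO : S_LO) (hDE : S_DE) (hSR : S_SR) (hSB : S_SB) (hSC : S_SC)
    (μ : ℕ → ℕ) (R s l q n Q : ℕ) (hnQ : n + q ≤ Q + 1) (hR : 6 ^ (q + 3) * (n + 1) ≤ R)
    (K : Type) [Finite K] (s0 z0 : ℝ) (hs0 : 1 ≤ s0) (hz0 : 1 ≤ z0)
    (V : Type) [Fintype V] [Nonempty V] (G : SimpleGraph V) (κ : V → K)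
    (hRk : Rk R s (l + 1) G)
    (A B : Type) [Fintype A] [Fintype B] (σ : Fin n → Bool) (x : A → Fin n → V)
    (y : B → Fin n → V) (I : Finset (Fin n)) (i : Fin n) (θ : TT K Q q n) (hi : i ∈ I)
    (hMain : ∀ v : V, ∀ w : Fin s → V, Rk R s l (del (ball G v R) w) →
      ∀ Θ : Set (OT (KD (KL K Q q R) s (6 ^ q)) q n),
      SpP s0 (fun a b => O (del (ball G v R) w)
        (κD (ball G v R) (κL G κ Q q R v) w (6 ^ q)) q n (mix σ (x a) (y b)) ∈ Θ))
    (W : Finset V) (hWx : ∀ a k, x a k ∈ W) (hWy : ∀ b k, y b k ∈ W)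
    (c : V → V) (Z : V → Finset V)
    (hc : ∀ b ∈ W, G.edist b (c b) ≤ ((2 * (n * (6 * 6 ^ q)) : ℕ) : ℕ∞))
    (hcZ : ∀ a ∈ W, ∀ b ∈ W, G.edist a b ≤ ((2 * (n * (6 * 6 ^ q)) : ℕ) : ℕ∞) → c b ∈ Z a)
    (hZ : ∀ a, ((Z a).card : ℝ) ≤ z0) :
    ∃ Y : A → B → Prop, SpP (z0 * (2 * (1 + s0)) ^ 3) Y ∧
    ∀ a b, (∀ k ∈ I, G.edist (mix σ (x a) (y b) i) (mix σ (x a) (y b) k) ≤
        ((n * (6 * 6 ^ q) : ℕ) : ℕ∞)) →
      (Y a b ↔ T G κ Q q n (fun k => if k ∈ I then mix σ (x a) (y b) k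
        else mix σ (x a) (y b) i) = θ) := by
  classical
  have hone : (1 : ℝ) ≤ z0 * (2 * (1 + s0)) ^ 3 := by
    have h1 : (1 : ℝ) ≤ 2 * (1 + s0) := by linarith
    have h2 : (1 : ℝ) ≤ (2 * (1 + s0)) ^ 3 := one_le_pow₀ h1
    nlinarith
  by_cases hall : ∀ k ∈ I, σ k = true
  · refine ⟨fun a _ => T G κ Q q n (fun k => if k ∈ I then x a k else x a i) = θ,
      hSR.2.2.2 A B _ 1 _ hone (hSR.1 A B _), fun a b _ => ?_⟩
    have h1 : (fun k => if k ∈ I then mix σ (x a) (y b) k else mix σ (x a) (y b) i) =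
        (fun k => if k ∈ I then x a k else x a i) := by
      funext k
      by_cases hk : k ∈ I
      · simp [hk, mix, hall k hk]
      · simp [hk, mix, hall i hi]
    rw [h1]
  by_cases hall2 : ∀ k ∈ I, σ k = false
  · refine ⟨fun _ b => T G κ Q q n (fun k => if k ∈ I then y b k else y b i) = θ,
      hSR.2.2.2 A B _ 1 _ hone (hSR.2.1 A B _), fun a b _ => ?_⟩
    have h1 : (fun k => if k ∈ I then mix σ (x a) (y b) k else mix σ (x a) (y b) i) =
        (fun k => if k ∈ I then y b k else y b i) := by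
      funext k
      by_cases hk : k ∈ I
      · simp [hk, mix, hall2 k hk]
      · simp [hk, mix, hall2 i hi]
    rw [h1]
  push Not at hall hall2
  obtain ⟨k0, hk0, hσk0⟩ := hall
  obtain ⟨l0, hl0, hσl0⟩ := hall2
  have hσk0' : σ k0 = false := by simpa using hσk0
  have hσl0' : σ l0 = true := by simpa using hσl0
  choose w hw using hRk
  -- the relation `Y v`
  let r1 : ℕ := 2 * (n * (6 * 6 ^ q))
  let Θv : V → Set (OT (KD (KL K Q q R) s (6 ^ q)) q n) := fun v =>
    {t | ∃ u : Fin n → V, (∀ k ∈ I, G.edist v (u k) ≤ ((2 * r1 : ℕ) : ℕ∞)) ∧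
      T G κ Q q n (fun k => u (if k ∈ I then k else i)) = θ ∧
      t = O (del (ball G v R) (w v)) (κD (ball G v R) (κL G κ Q q R v) (w v) (6 ^ q)) q n u}
  let Yv : V → A → B → Prop := fun v a b =>
    (∀ k ∈ I, G.edist v (mix σ (x a) (y b) k) ≤ ((2 * r1 : ℕ) : ℕ∞)) ∧
    O (del (ball G v R) (w v)) (κD (ball G v R) (κL G κ Q q R v) (w v) (6 ^ q)) q n
      (mix σ (x a) (y b)) ∈ Θv v
  have hYv : ∀ v, SpP ((2 * (1 + s0)) ^ 3) (Yv v) := by
    intro v
    have h := hSB A B (Fin 3) s0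
      (![fun a _ => ∀ k ∈ I, σ k = true → G.edist v (x a k) ≤ ((2 * r1 : ℕ) : ℕ∞),
        fun _ b => ∀ k ∈ I, σ k = false → G.edist v (y b k) ≤ ((2 * r1 : ℕ) : ℕ∞),
        fun a b => O (del (ball G v R) (w v))
          (κD (ball G v R) (κL G κ Q q R v) (w v) (6 ^ q)) q n (mix σ (x a) (y b)) ∈ Θv v])
      (Yv v) (by linarith) (by
        intro j
        fin_cases j
        · exact hSR.2.2.2 A B _ 1 _ hs0 (hSR.1 A B _)
        · exact hSR.2.2.2 A B _ 1 _ hs0 (hSR.2.1 A B _)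
        · exact hMain v (w v) (hw v) (Θv v)) (by
        intro a b a' b' h
        have h0 := h 0
        have h1 := h 1
        have h2 := h 2
        simp only [Matrix.cons_val_zero, Matrix.cons_val_one, Matrix.cons_val] at h0 h1 h2
        have key : ∀ a b, (∀ k ∈ I, G.edist v (mix σ (x a) (y b) k) ≤ ((2 * r1 : ℕ) : ℕ∞)) ↔
            (∀ k ∈ I, σ k = true → G.edist v (x a k) ≤ ((2 * r1 : ℕ) : ℕ∞)) ∧
            (∀ k ∈ I, σ k = false → G.edist v (y b k) ≤ ((2 * r1 : ℕ) : ℕ∞)) := by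
          intro a b
          constructor
          · intro hh
            refine ⟨fun k hk hs => ?_, fun k hk hs => ?_⟩
            · have := hh k hk
              simpa [mix, hs] using this
            · have := hh k hk
              simpa [mix, hs] using this
          · rintro ⟨hh1, hh2⟩ k hk
            cases hs : σ k
            · simpa [mix, hs] using hh2 k hk hs
            · simpa [mix, hs] using hh1 k hk hs
        show (_ ∧ _) ↔ (_ ∧ _)
        rw [key a b, key a' b', h0, h1, h2])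
    simpa using h
  have hY := hSC A B V ((2 * (1 + s0)) ^ 3) z0 (fun a => Z (x a l0)) (fun b => c (y b k0)) Yv
    (by positivity) hz0 (fun a => hZ _) hYv
  refine ⟨_, hY, fun a b hab => ?_⟩
  -- correctness
  set z : Fin n → V := mix σ (x a) (y b) with hz
  have hzk0 : z k0 = y b k0 := by simp [hz, mix, hσk0']
  have hzl0 : z l0 = x a l0 := by simp [hz, mix, hσl0']
  have hdist : ∀ k ∈ I, ∀ k' ∈ I, G.edist (z k) (z k') ≤ ((r1 : ℕ) : ℕ∞) := by
    intro k hk k' hk'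
    calc G.edist (z k) (z k') ≤ G.edist (z k) (z i) + G.edist (z i) (z k') :=
          SimpleGraph.edist_triangle
      _ ≤ ((n * (6 * 6 ^ q) : ℕ) : ℕ∞) + ((n * (6 * 6 ^ q) : ℕ) : ℕ∞) := by
          apply add_le_add
          · rw [SimpleGraph.edist_comm]
            exact hab k hk
          · exact hab k' hk'
      _ = ((r1 : ℕ) : ℕ∞) := by
          rw [← Nat.cast_add]
          congr 1
          show _ = 2 * (n * (6 * 6 ^ q))
          ring
  have hvZ : c (y b k0) ∈ Z (x a l0) := by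
    apply hcZ _ (hWx a l0) _ (hWy b k0)
    rw [← hzk0, ← hzl0]
    exact hdist l0 hl0 k0 hk0
  have hvd : ∀ k ∈ I, G.edist (c (y b k0)) (z k) ≤ ((2 * r1 : ℕ) : ℕ∞) := by
    intro k hk
    calc G.edist (c (y b k0)) (z k) ≤ G.edist (c (y b k0)) (y b k0) + G.edist (y b k0) (z k) :=
          SimpleGraph.edist_triangle
      _ ≤ ((r1 : ℕ) : ℕ∞) + ((r1 : ℕ) : ℕ∞) := by
          apply add_le_add
          · rw [SimpleGraph.edist_comm]
            exact hc _ (hWy b k0)
          · rw [← hzk0]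
            exact hdist k0 hk0 k hk
      _ = ((2 * r1 : ℕ) : ℕ∞) := by
          rw [← Nat.cast_add]
          congr 1
          ring
  have hfun : (fun k => if k ∈ I then z k else z i) = (fun k => z (if k ∈ I then k else i)) := by
    funext k
    split_ifs <;> rfl
  rw [hfun]
  constructor
  · rintro ⟨-, -, u, hu1, hu2, hu3⟩
    rw [← hu2]
    have e1 := (hRI V _ (del (ball G (c (y b k0)) R) (w (c (y b k0))))
      (κD (ball G (c (y b k0)) R) (κL G κ Q q R (c (y b k0))) (w (c (y b k0))) (6 ^ q)) 0 q n n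
      z u (fun k => if k ∈ I then k else i)).1 hu3
    have e2 := hDE V _ (ball G (c (y b k0)) R) (κL G κ Q q R (c (y b k0))) s (w (c (y b k0)))
      (6 ^ q) q n le_rfl _ _ e1
    refine hLO V K G κ Q q n (2 * r1) R (c (y b k0)) hnQ ?_ _ _ ?_ ?_ e2
    · refine le_trans ?_ hR
      show 2 * (2 * (n * (6 * 6 ^ q))) + 6 ^ (q + 2) ≤ 6 ^ (q + 3) * (n + 1)
      rw [pow_add, pow_add]
      have : 0 < 6 ^ q := by positivity
      have h3 : 0 ≤ n * 6 ^ q := by positivity
      nlinarith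
    · intro k
      by_cases hk : k ∈ I
      · simpa [hk] using hvd k hk
      · simpa [hk] using hvd i hi
    · intro k
      by_cases hk : k ∈ I
      · simpa [hk] using hu1 k hk
      · simpa [hk] using hu1 i hi
  · intro hT
    exact ⟨hvZ, hvd, z, hvd, hT, rfl⟩

theorem m2 (hG : S_G) (hFIN : S_FIN) (hRI : S_RI) (hLO : S_LO) (hDE : S_DE) (hSR : S_SR)
    (hSB : S_SB) (hSC : S_SC) : S_M2 := by
  classical
  intro μ R s l q n Q hnQ hR hM K _ ε hε
  have hTT : ∀ j : Fin (q + 1), Finite (TT K Q j 1) := fun j => (hFIN K Q j 1).2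
  have hK' : Finite (KD (KL K Q q R) s (6 ^ q)) := by
    unfold KD KL
    infer_instance
  have hε' : 0 < ε / 4 := by positivity
  obtain ⟨C1, hC1⟩ := hM (KD (KL K Q q R) s (6 ^ q)) (ε / 4) hε'
  obtain ⟨C2, hC2⟩ := hG μ (2 * (n * (6 * 6 ^ q))) (ε / 4) hε'
  set D : ℝ := max 1 C1 with hD
  set F : ℝ := max 1 C2 with hF
  have hD1 : 1 ≤ D := le_max_left _ _
  have hF1 : 1 ≤ F := le_max_left _ _
  have hDC : C1 ≤ D := le_max_right _ _
  have hFC : C2 ≤ F := le_max_right _ _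
  refine ⟨F * (n : ℝ) ^ (ε / 4) * (64 * D ^ 3), ?_⟩
  intro V _ _ G κ hEx hRk A B _ _ σ x y I i θ hi
  have hn : (1 : ℝ) ≤ n := by
    have : 0 < n := lt_of_le_of_lt (Nat.zero_le _) i.2
    exact_mod_cast this
  set N : ℝ := (Fintype.card A : ℝ) + (Fintype.card B : ℝ) with hN
  by_cases hzero : Fintype.card A = 0 ∧ Fintype.card B = 0
  · haveI : IsEmpty A := Fintype.card_eq_zero_iff.1 hzero.1
    haveI : IsEmpty B := Fintype.card_eq_zero_iff.1 hzero.2
    refine ⟨fun _ _ => True, spP_empty _ ?_ _, fun a => isEmptyElim a⟩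
    positivity
  have hN1 : 1 ≤ N := by
    have h1 : 1 ≤ Fintype.card A + Fintype.card B := by
      by_contra hcon
      apply hzero
      constructor <;> omega
    rw [hN]
    exact_mod_cast h1
  have hN0 : 0 < N := by linarith
  have hNe : 1 ≤ N ^ (ε / 4) := Real.one_le_rpow hN1 hε'.le
  -- the set of all entries
  let W : Finset V := (Finset.univ.image fun p : A × Fin n => x p.1 p.2) ∪
    (Finset.univ.image fun p : B × Fin n => y p.1 p.2)
  have hWx : ∀ a k, x a k ∈ W := fun a k =>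
    Finset.mem_union_left _ (Finset.mem_image.2 ⟨(a, k), Finset.mem_univ _, rfl⟩)
  have hWy : ∀ b k, y b k ∈ W := fun b k =>
    Finset.mem_union_right _ (Finset.mem_image.2 ⟨(b, k), Finset.mem_univ _, rfl⟩)
  have hWc : (W.card : ℝ) ≤ n * N := by
    have h1 : W.card ≤ Fintype.card A * n + Fintype.card B * n := by
      refine (Finset.card_union_le _ _).trans (add_le_add ?_ ?_)
      · refine Finset.card_image_le.trans ?_
        simp
      · refine Finset.card_image_le.trans ?_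
        simp
    have h2 : (W.card : ℝ) ≤ (Fintype.card A : ℝ) * n + (Fintype.card B : ℝ) * n := by
      exact_mod_cast h1
    calc (W.card : ℝ) ≤ (Fintype.card A : ℝ) * n + (Fintype.card B : ℝ) * n := h2
      _ = n * N := by rw [hN]; ring
  obtain ⟨c, Z, hc, hcZ, hZ⟩ := hC2 V G hEx W
  have hz0 : 1 ≤ F * (n * N) ^ (ε / 4) := by
    have h1 : 1 ≤ ((n : ℝ) * N) ^ (ε / 4) := Real.one_le_rpow (by nlinarith) hε'.le
    nlinarith
  have hs0 : 1 ≤ D * N ^ (ε / 4) := by nlinarith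
  obtain ⟨Y, hY, hY2⟩ := piece hRI hLO hDE hSR hSB hSC μ R s l q n Q hnQ hR K
    (D * N ^ (ε / 4)) (F * (n * N) ^ (ε / 4)) hs0 hz0 V G κ hRk A B σ x y I i θ hi
    (by
      intro v w hw Θ
      refine hSR.2.2.2 A B _ (C1 * N ^ (ε / 4)) _ ?_ (hC1 V (del (ball G v R) w)
        (κD (ball G v R) (κL G κ Q q R v) w (6 ^ q))
        (ex_mono ((del_le _ _).trans (ball_le _ _ _)) hEx) hw A B σ x y Θ)
      exact mul_le_mul_of_nonneg_right hDC (by positivity))
    W hWx hWy c Z hc hcZ (by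
      intro a
      refine (hZ a).trans ?_
      calc C2 * (W.card : ℝ) ^ (ε / 4) ≤ F * (W.card : ℝ) ^ (ε / 4) :=
            mul_le_mul_of_nonneg_right hFC (by positivity)
        _ ≤ F * (n * N) ^ (ε / 4) :=
            mul_le_mul_of_nonneg_left (Real.rpow_le_rpow (by positivity) hWc hε'.le)
              (by linarith))
  refine ⟨Y, hSR.2.2.2 A B _ _ _ ?_ hY, hY2⟩
  have h1 : 2 * (1 + D * N ^ (ε / 4)) ≤ 4 * (D * N ^ (ε / 4)) := by linarith
  have h2 : (2 * (1 + D * N ^ (ε / 4))) ^ 3 ≤ (4 * (D * N ^ (ε / 4))) ^ 3 :=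
    pow_le_pow_left₀ (by linarith) h1 3
  have h3 : (n * N : ℝ) ^ (ε / 4) = (n : ℝ) ^ (ε / 4) * N ^ (ε / 4) :=
    Real.mul_rpow (by linarith) hN0.le
  have h4 : N ^ ε = (N ^ (ε / 4)) ^ 4 := by
    rw [← Real.rpow_natCast, ← Real.rpow_mul hN0.le]
    congr 1
    push_cast
    ring
  calc F * (n * N) ^ (ε / 4) * (2 * (1 + D * N ^ (ε / 4))) ^ 3
      ≤ F * (n * N) ^ (ε / 4) * (4 * (D * N ^ (ε / 4))) ^ 3 :=
        mul_le_mul_of_nonneg_left h2 (by linarith)
    _ = F * (n : ℝ) ^ (ε / 4) * (64 * D ^ 3) * N ^ ε := by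
        rw [h3, h4]
        ring

end Pool.Agent.N619.ND
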